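import Pool.Agent.H631.TH.Asm

/-!
# It is consistent that the countably perfectly null sets are the countably perfectly meager universally null sets

The model is the one for the equality of the classes of countably perfectly null and countably perfectly meager
sets: a finite support iteration of tree Hechler forcing along a well-ordered set `T` whose cardinality is a successor
`κ⁺` with `κ ^ ℵ₀ = κ`. It forces the combinatorial principle `PhiFor T`, which implies in ZFC that in all Polish
spaces every countably perfectly meager set is countably perfectly null; so it is also universally null. See the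
docstrings in `Pool/Agent/H631/TH/ZStm.lean`, `FStm.lean` and `GStm.lean` for the proofs of all steps.
-/

set_option autoImplicit false

namespace Pool.Agent.Results.MP_2087e7_lc.ConsistentlyEqual

open MeasureTheory Pool.Agent.H631.TH

/-- universally null: outer measure `0` for every finite non-atomic Borel measure -/
def UniversallyNull {X : Type} [TopologicalSpace X] [MeasurableSpace X] (A : Set X) : Prop :=
  ∀ μ : Measure X, IsFiniteMeasure μ → (∀ x, μ {x} = 0) → μ A = 0

theorem un_of_pn {X : Type} [TopologicalSpace X] [MeasurableSpace X] {A : Set X}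
    (h : PNSigma A) : UniversallyNull A := by
  intro μ h1 h2
  obtain ⟨F, -, hAF, hF⟩ := h μ h1 h2
  exact measure_mono_null hAF hF

/-- (A) For every set `R` there are a set `T`, with an injection from `R` to `T`, and a nonempty ccc notion of forcing
`P`, all of whose conditions force the sentence `PhiHolds`, i.e. `PhiFor T`. (B) The sentence
`PhiHolds` of the forcing language means `PhiFor` (over the trivial notion of forcing). (C) (In ZFC) if `PhiFor T` holds for
some `T`, then in every Polish space `X` a set is countably perfectly null if and only if it is countably perfectly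
meager and universally null; moreover, every countably perfectly meager set is universally null. -/
theorem result :
    (∀ R : Type, ∃ (T P : Type) (_ : Preorder P), Nonempty (R ↪ T) ∧ Nonempty P ∧
      (∀ A : Set P, (∀ p ∈ A, ∀ q ∈ A, p ≠ q → ¬ ∃ r, r ≤ p ∧ r ≤ q) → A.Countable) ∧
      ∀ p : P, p ∈ PhiHolds P T) ∧
    (∀ (T : Type) (p : Unit), p ∈ PhiHolds Unit T ↔ PhiFor T) ∧
    (∀ T : Type, PhiFor T → ∀ (X : Type) [TopologicalSpace X] [PolishSpace X]
      [MeasurableSpace X] [BorelSpace X] (A : Set X),
        (PNSigma A ↔ PMSigma A ∧ UniversallyNull A) ∧ (PMSigma A → UniversallyNull A)) := by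
  refine ⟨fun R => ?_, Pool.Agent.H631.THD.UNIT.th_UNIT, fun T hT X _ _ _ _ A =>
    ⟨⟨fun h => ⟨Pool.Agent.H631.THD.PNPM.th_PNPM X A h, un_of_pn h⟩,
      fun h => transThm T hT X A h.1⟩, fun h => un_of_pn (transThm T hT X A h)⟩⟩
  obtain ⟨M, T, i1, i2, i3, Γ, hR, hF, hT, hPH⟩ := kmThm R
  refine ⟨T, PP Γ, inferInstance, hR, ⟨(Cond.one : Cond M T)⟩, fun A hA => ?_,
    finThm M T Γ ccc hF hT hPH⟩
  by_contra hcon
  obtain ⟨p, hp, q, hq, hne, r, h1, h2⟩ := ccc (Γ := Γ) A hcon
  exact hA p hp q hq hne ⟨r, h1, h2⟩

end Pool.Agent.Results.MP_2087e7_lc.ConsistentlyEqual
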